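import Pool.Agent.Helper53.MS.Cls
import Pool.Agent.Helper38.MS.Defs

/-!
# MS8: the class of a component
-/

set_option autoImplicit false
set_option linter.unusedSectionVars false

namespace Pool.Agent.Helper38.MS

open FirstOrder Pool.Agent.Helper20.Spectra Pool.Agent.Helper31.QD Pool.Agent.Helper38.MC
  Pool.Agent.Helper58.QD Pool.Agent.Helper40.MC Pool.Agent.Helper6.MC Pool.Agent.Helper6.EA
open Pool.Agent.Helper12.EK (Gr Ball Cmp mem_Cmp)

variable {S : Type} {ar : S → ℕ} {V : Type} [Fintype V]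

private theorem gd_mono53 {r Δ T m : ℕ} {R : Interp S ar V} {A A' : Finset V} {E : V → V → Prop}
    (hG : Gd r R A E m Δ T) (hA : A ⊆ A') : Gd r R A' E m Δ T where
  refl := hG.refl
  symm := hG.symm
  inv := fun h hh => hG.inv h (mem_GS.2 ⟨(mem_GS.1 hh).1, fun x hx => (mem_GS.1 hh).2 x (hA hx)⟩)
  deg := hG.deg
  main := fun A'' hA'' => hG.main A'' (hA.trans hA'')

/-- MS8: the class of a component -/
theorem classL {r Δ T : ℕ} (har : ∀ s, ar s ≤ r) (R : Interp S ar V) {A A' : Finset V} {E : V → V → Prop}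
    [DecidableEq V] (hG : Gd r R A E r Δ T) (hA : A ⊆ A') {x : V} (hx : ∀ y ∈ Cmp E x, y ∉ A')
    (hO : (Cmp E x).card * (T + r + 4) < (oA R A' x).card) :
    ∃ (D t : ℕ) (u : Fin D × Fin t → V), 1 ≤ D ∧ t = (Cmp E x).card ∧ Function.Injective u ∧ (∀ p, u p ∉ A') ∧
      (∀ (π : Equiv.Perm (Fin D)) (σ : Equiv.Perm V), (∀ i x, σ (u (i, x)) = u (π i, x)) →
        (∀ z, (∀ p, u p ≠ z) → σ z = z) → Au R σ) ∧
      (∀ g ∈ GA R A', ∀ i, ∃ i', ∀ x, ∃ x', g (u (i, x)) = u (i', x')) ∧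
      (∀ g ∈ GA R A', ∀ i, (∀ x, ∃ x', g (u (i, x)) = u (i, x')) → ∀ σ : Equiv.Perm V,
        (∀ x, σ (u (i, x)) = g (u (i, x))) → (∀ z, (∀ x, u (i, x) ≠ z) → σ z = z) → Au R σ) ∧
      (∀ p z, (Gr E).Reachable (u p) z → ∃ p', u p' = z) := by
  have hG' := gd_mono53 hG hA
  obtain ⟨D, g, z, h1, -, hg, hinj, hC, -, h5, h6, h7⟩ := cls_comp har R hG' (x := x) (by
    refine lt_of_le_of_lt (Nat.mul_le_mul_left _ ?_) hO
    omega)
  refine ⟨D, (Cmp E x).card, fun p => g p.1 (z p.2), by omega, rfl, hinj, ?_, ?_, ?_, ?_, ?_⟩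
  · rintro ⟨i, a⟩ hp
    have hp' : g i (z a) ∈ A' := hp
    have hi := GS_inv (hg i)
    have e1 : (g i)⁻¹ (g i (z a)) = z a := (g i).symm_apply_apply _
    have e2 : (g i)⁻¹ (g i (z a)) = g i (z a) := (mem_GS.1 hi).2 _ hp'
    have e3 : z a ∈ A' := by
      rw [e1] at e2
      rw [e2]
      exact hp'
    have h8 : (Gr E).Reachable (g i x) (g i (z a)) := mem_Cmp.1 ((hC i _).2 ⟨a, rfl⟩)
    have h9 : (Gr E).Reachable ((g i)⁻¹ (g i x)) ((g i)⁻¹ (g i (z a))) := reach_map20 (fun a b => hG'.inv _ hi a b) h8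
    rw [e1, show (g i)⁻¹ (g i x) = x from (g i).symm_apply_apply _] at h9
    exact hx _ (mem_Cmp.2 h9) e3
  · intro π σ h8 h9
    exact h6 π σ h8 (fun v hv => h9 v (fun p => hv p.1 p.2))
  · intro h hh i
    exact h5 h hh i
  · intro h hh i hi σ h8 h9
    exact h7 h hh i hi σ h8 h9
  · rintro ⟨i, a⟩ v hv
    have h8 : (Gr E).Reachable (g i x) (g i (z a)) := mem_Cmp.1 ((hC i _).2 ⟨a, rfl⟩)
    obtain ⟨b, hb⟩ := (hC i v).1 (mem_Cmp.2 (h8.trans hv))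
    exact ⟨(i, b), hb⟩

end Pool.Agent.Helper38.MS
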