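import Pool.Agent.Helper20.EA.Fam
import Pool.Agent.Helper6.EA.Same

/-!
# MS8: the class of the translates of a component
-/

set_option autoImplicit false
set_option linter.unusedSectionVars false

namespace Pool.Agent.Helper6.EA

open FirstOrder Pool.Agent.Helper20.Spectra Pool.Agent.Helper31.QD Pool.Agent.Helper38.MC
  Pool.Agent.Helper58.QD Pool.Agent.Helper40.MC Pool.Agent.Helper6.MC Pool.Agent.Helper31.MC
open Pool.Agent.Helper12.EK (Gr Ball Cmp mem_Cmp)

variable {S : Type} {ar : S → ℕ} {V : Type} [Fintype V]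

open Classical in
/-- moving one tuple: the pattern `p` avoids the neighbours of `g ∘ u` and `g' ∘ u` -/
theorem mv_one {r Δ T : ℕ} (R : Interp S ar V) {A : Finset V} {E : V → V → Prop} (hG : Gd r R A E r Δ T)
    {u : Fin (r + 1) → V} {g g' : Equiv.Perm V} (hg : g ∈ GA R A) (hg' : g' ∈ GA R A)
    (hu : (Finset.univ.image u).card ≤ r) (hO : ∀ i, T < (oA R A (u i)).card) {s : S}
    {p : Fin (ar s) → V ⊕ Fin (r + 1)} (hp : ∀ w ∈ out p, ∀ i, ¬ E (g (u i)) w ∧ ¬ E (g' (u i)) w) :
    R s (ev (g ∘ u) p) ↔ R s (ev (g' ∘ u) p) := by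
  -- the orbits
  have horb : ∀ h ∈ GA R A, ∀ i, T < (oA R A (h (u i))).card := by
    intro h hh i
    refine lt_of_lt_of_le (hO i) (Finset.card_le_card ?_)
    intro y hy
    obtain ⟨f, hf, rfl⟩ := mem_orb'.1 hy
    refine mem_orb'.2 ⟨f * h⁻¹, GS_mul hf (GS_inv hh), ?_⟩
    rw [Equiv.Perm.mul_apply]
    congr 1
    exact h.symm_apply_apply _
  have himg : ∀ h : Equiv.Perm V, (Finset.univ.image (h ∘ u)).card ≤ r := by
    intro h
    rw [← Finset.image_image]
    exact Finset.card_image_le.trans hu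
  have hm : ∀ h ∈ GA R A, (∀ w ∈ out p, ∀ i, ¬ E (h (u i)) w) → ¬ Min R A (h ∘ u) s p := by
    intro h hh hav hmin
    obtain ⟨w, hw, i, hi⟩ := hG.main A subset_rfl (h ∘ u) (himg h) (horb h hh) s p hmin
    exact hav w hw i hi
  have h1 := hm g hg (fun w hw i => (hp w hw i).1)
  have h2 := hm g' hg' (fun w hw i => (hp w hw i).2)
  have e : ((g' * g⁻¹ : Equiv.Perm V) ∘ (g ∘ u)) = g' ∘ u := by
    funext i
    show g' (g⁻¹ (g (u i))) = g' (u i)
    congr 1
    exact g.symm_apply_apply _
  have h3 := same R (g := g' * g⁻¹) (GS_mul hg' (GS_inv hg)) h1 (by rw [e]; exact h2)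
  rw [e] at h3
  exact h3.symm

/-- moving the part of a tuple in `B`: the other elements are not adjacent to `B` and `h B` -/
theorem mv_blk {r Δ T : ℕ} (har : ∀ s, ar s ≤ r) (R : Interp S ar V) {A : Finset V} {E : V → V → Prop}
    (hG : Gd r R A E r Δ T) {h : Equiv.Perm V} (hh : h ∈ GA R A) {B : V → Prop}
    (hB : ∀ w, B w → T < (oA R A w).card) {s : S} {v : Fin (ar s) → V} {τ : V → V}
    (hτ1 : ∀ w, B w → τ w = h w) (hτ2 : ∀ m, ¬ B (v m) → τ (v m) = v m)
    (hav : ∀ m, ¬ B (v m) → ∀ w, B w → ¬ E w (v m) ∧ ¬ E (h w) (v m)) : R s (τ ∘ v) ↔ R s v := by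
  classical
  by_cases hex : ∃ m₀, B (v m₀)
  · obtain ⟨m₀, hm₀⟩ := hex
    have hrs : ar s ≤ r := har s
    let c : Fin (r + 1) → V := fun l =>
      if hl : ∃ hl : (l : ℕ) < ar s, B (v ⟨l, hl⟩) then v ⟨l, hl.1⟩ else v m₀
    let p : Fin (ar s) → V ⊕ Fin (r + 1) := fun m => if B (v m) then Sum.inr ⟨m, by omega⟩ else Sum.inl (v m)
    have hc : ∀ l, B (c l) := by
      intro l
      by_cases hl : ∃ hl : (l : ℕ) < ar s, B (v ⟨l, hl⟩)
      · simp only [c]
        rw [dif_pos hl]
        exact hl.2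
      · simp only [c]
        rw [dif_neg hl]
        exact hm₀
    have hcard : (Finset.univ.image c).card ≤ r := by
      have h1 : Finset.univ.image c ⊆ Finset.univ.image v := by
        intro w hw
        obtain ⟨l, -, rfl⟩ := Finset.mem_image.1 hw
        rw [Finset.mem_image]
        by_cases hl : ∃ hl : (l : ℕ) < ar s, B (v ⟨l, hl⟩)
        · refine ⟨⟨l, hl.1⟩, Finset.mem_univ _, ?_⟩
          simp only [c]
          rw [dif_pos hl]
        · refine ⟨m₀, Finset.mem_univ _, ?_⟩
          simp only [c]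
          rw [dif_neg hl]
      refine (Finset.card_le_card h1).trans (Finset.card_image_le.trans ?_)
      rw [Finset.card_univ, Fintype.card_fin]
      exact hrs
    have hcv : ∀ m : Fin (ar s), B (v m) → c ⟨m, by omega⟩ = v m := by
      intro m hm
      have hl : ∃ hl : ((⟨m, by omega⟩ : Fin (r + 1)) : ℕ) < ar s, B (v ⟨(⟨m, by omega⟩ : Fin (r + 1)), hl⟩) :=
        ⟨m.2, hm⟩
      simp only [c]
      rw [dif_pos hl]
    have hev : ∀ g : Equiv.Perm V, ∀ m, ev (g ∘ c) p m = if B (v m) then g (v m) else v m := by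
      intro g m
      show Sum.elim id (g ∘ c) (p m) = _
      by_cases hm : B (v m)
      · have e : p m = Sum.inr ⟨m, by omega⟩ := if_pos hm
        rw [e, if_pos hm]
        show g (c ⟨m, _⟩) = g (v m)
        rw [hcv m hm]
      · have e : p m = Sum.inl (v m) := if_neg hm
        rw [e, if_neg hm]
        rfl
    have h1 := mv_one R hG (u := c) (g := 1) (g' := h) (mem_GS.2 ⟨(AuG R).one_mem, fun _ _ => rfl⟩) hh hcard
      (fun i => hB _ (hc i)) (s := s) (p := p) (fun w hw i => by
        obtain ⟨m, hm⟩ := mem_out.1 hw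
        by_cases hm' : B (v m)
        · have e : p m = Sum.inr ⟨m, by omega⟩ := if_pos hm'
          rw [e] at hm
          exact absurd hm (by simp)
        · have e : p m = Sum.inl (v m) := if_neg hm'
          rw [e] at hm
          have h2 : v m = w := Sum.inl_injective hm
          subst h2
          exact hav m hm' _ (hc i))
    have e1 : ev ((1 : Equiv.Perm V) ∘ c) p = v := by
      funext m
      rw [hev]
      split_ifs
      · rfl
      · rfl
    have e2 : ev (h ∘ c) p = τ ∘ v := by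
      funext m
      rw [hev]
      show _ = τ (v m)
      split_ifs with hm
      · exact (hτ1 _ hm).symm
      · exact (hτ2 m hm).symm
    rw [e1, e2] at h1
    exact h1.symm
  · push Not at hex
    have e : τ ∘ v = v := by
      funext m
      exact hτ2 m (hex m)
    rw [e]

/-- **the class of a component**: `D` translates `u (i, ·)` of the component of `x`, all of them; all permutations of the
translates are automorphisms; the group permutes the translates; an element which preserves a translate acts on it alone. -/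
theorem cls_comp [DecidableEq V] {r Δ T : ℕ} (har : ∀ s, ar s ≤ r) (R : Interp S ar V) {A : Finset V} {E : V → V → Prop}
    (hG : Gd r R A E r Δ T) {x : V} (hO : (Cmp E x).card * (T + r + 3) < (oA R A x).card) :
    ∃ (D : ℕ) (g : Fin D → Equiv.Perm V) (z : Fin (Cmp E x).card → V),
      T + r + 3 < D ∧ (oA R A x).card ≤ D * (Cmp E x).card ∧ (∀ i, g i ∈ GA R A) ∧
      Function.Injective (fun p : Fin D × Fin (Cmp E x).card => g p.1 (z p.2)) ∧
      (∀ i v, v ∈ Cmp E (g i x) ↔ ∃ a, g i (z a) = v) ∧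
      (∀ y ∈ oA R A x, ∃ i a, g i (z a) = y) ∧
      (∀ h ∈ GA R A, ∀ i, ∃ j, ∀ a, ∃ b, h (g i (z a)) = g j (z b)) ∧
      (∀ (π : Equiv.Perm (Fin D)) (σ : Equiv.Perm V), (∀ i a, σ (g i (z a)) = g (π i) (z a)) →
        (∀ v, (∀ i a, g i (z a) ≠ v) → σ v = v) → Au R σ) ∧
      (∀ h ∈ GA R A, ∀ i, (∀ a, ∃ b, h (g i (z a)) = g i (z b)) → ∀ σ : Equiv.Perm V,
        (∀ a, σ (g i (z a)) = h (g i (z a))) → (∀ v, (∀ a, g i (z a) ≠ v) → σ v = v) → Au R σ) := by
  classical
  have hxx : x ∈ Cmp E x := mem_Cmp.2 (SimpleGraph.Reachable.refl x)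
  have hinv : ∀ {g : Equiv.Perm V}, g ∈ GA R A → ∀ {a b : V}, (Gr E).Reachable a b → (Gr E).Reachable (g a) (g b) :=
    fun hg _ _ h => reach_map20 (fun a b => hG.inv _ hg a b) h
  have hback : ∀ {g : Equiv.Perm V}, g ∈ GA R A → ∀ {a b : V}, (Gr E).Reachable (g a) b →
      ∃ b', g b' = b ∧ (Gr E).Reachable a b' := by
    intro g hg a b h
    refine ⟨g⁻¹ b, g.apply_symm_apply b, ?_⟩
    have h1 := hinv (GS_inv hg) h
    rwa [show g⁻¹ (g a) = a from g.symm_apply_apply a] at h1
  -- the class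
  let 𝒞 : Finset (Finset V) := (oA R A x).image (fun y => Cmp E y)
  let e : Fin 𝒞.card ≃ 𝒞 := 𝒞.equivFin.symm
  have hch : ∀ i : Fin 𝒞.card, ∃ g, g ∈ GA R A ∧ Cmp E (g x) = (e i : Finset V) := by
    intro i
    obtain ⟨y, hy, hy'⟩ := Finset.mem_image.1 (e i).2
    obtain ⟨g, hg, rfl⟩ := mem_orb'.1 hy
    exact ⟨g, hg, hy'⟩
  choose g hg hge using hch
  let ez : Fin (Cmp E x).card ≃ Cmp E x := (Cmp E x).equivFin.symm
  let z : Fin (Cmp E x).card → V := fun a => ez a
  have hz : ∀ a, (Gr E).Reachable x (z a) := fun a => mem_Cmp.1 (ez a).2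
  have hzs : ∀ w, (Gr E).Reachable x w → ∃ a, z a = w := by
    intro w hw
    refine ⟨ez.symm ⟨w, mem_Cmp.2 hw⟩, ?_⟩
    show ((ez (ez.symm ⟨w, mem_Cmp.2 hw⟩) : Cmp E x) : V) = w
    rw [Equiv.apply_symm_apply]
  -- the points of a translate
  have hCi : ∀ (h : Equiv.Perm V), h ∈ GA R A → ∀ v, v ∈ Cmp E (h x) ↔ ∃ a, h (z a) = v := by
    intro h hh v
    constructor
    · intro hv
      obtain ⟨b, hb, hb'⟩ := hback hh (mem_Cmp.1 hv)
      obtain ⟨a, ha⟩ := hzs b hb'
      exact ⟨a, by rw [ha, hb]⟩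
    · rintro ⟨a, rfl⟩
      exact mem_Cmp.2 (hinv hh (hz a))
  -- two translates with a common point are equal
  have hcom : ∀ a b v, v ∈ Cmp E a → v ∈ Cmp E b → Cmp E a = Cmp E b := by
    intro a b v ha hb
    ext w
    rw [mem_Cmp, mem_Cmp]
    have h1 := mem_Cmp.1 ha
    have h2 := mem_Cmp.1 hb
    constructor
    · intro hw
      exact (h2.trans h1.symm).trans hw
    · intro hw
      exact (h1.trans h2.symm).trans hw
  have hinj : Function.Injective (fun p : Fin 𝒞.card × Fin (Cmp E x).card => g p.1 (z p.2)) := by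
    rintro ⟨i, a⟩ ⟨j, b⟩ h
    have h' : g i (z a) = g j (z b) := h
    have h1 : Cmp E (g i x) = Cmp E (g j x) :=
      hcom _ _ (g i (z a)) ((hCi _ (hg i) _).2 ⟨a, rfl⟩) ((hCi _ (hg j) _).2 ⟨b, h'.symm⟩)
    rw [hge, hge] at h1
    have h2 : i = j := e.injective (Subtype.ext h1)
    subst h2
    have h3 : z a = z b := (g i).injective h'
    have h4 : a = b := ez.injective (Subtype.ext h3)
    rw [h4]
  have hfull : ∀ h ∈ GA R A, ∃ j, Cmp E (h x) = Cmp E (g j x) := by
    intro h hh
    have h1 : Cmp E (h x) ∈ 𝒞 := Finset.mem_image.2 ⟨h x, mem_orb'.2 ⟨h, hh, rfl⟩, rfl⟩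
    refine ⟨e.symm ⟨_, h1⟩, ?_⟩
    rw [hge, Equiv.apply_symm_apply]
  have hcov : ∀ y ∈ oA R A x, ∃ i a, g i (z a) = y := by
    intro y hy
    obtain ⟨h, hh, rfl⟩ := mem_orb'.1 hy
    obtain ⟨j, hj⟩ := hfull h hh
    have h1 : h x ∈ Cmp E (g j x) := by
      rw [← hj]
      exact mem_Cmp.2 (SimpleGraph.Reachable.refl _)
    obtain ⟨a, ha⟩ := (hCi _ (hg j) _).1 h1
    exact ⟨j, a, ha⟩
  have hcard : (oA R A x).card ≤ 𝒞.card * (Cmp E x).card := by
    have h1 : oA R A x ⊆ Finset.univ.image (fun p : Fin 𝒞.card × Fin (Cmp E x).card => g p.1 (z p.2)) := by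
      intro y hy
      obtain ⟨i, a, h⟩ := hcov y hy
      exact Finset.mem_image.2 ⟨(i, a), Finset.mem_univ _, h⟩
    refine (Finset.card_le_card h1).trans (Finset.card_image_le.trans ?_)
    rw [Finset.card_univ, Fintype.card_prod, Fintype.card_fin, Fintype.card_fin]
  have hD : T + r + 3 < 𝒞.card := by
    by_contra hcon
    push Not at hcon
    have h1 : 𝒞.card * (Cmp E x).card ≤ (Cmp E x).card * (T + r + 3) := by
      rw [Nat.mul_comm]
      exact Nat.mul_le_mul_left _ hcon
    omega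
  -- the orbits of the points of the translates
  have horb : ∀ i a, T < (oA R A (g i (z a))).card := by
    intro i a
    have h1 : (Finset.univ.image fun j => g j (z a)) ⊆ oA R A (g i (z a)) := by
      intro w hw
      obtain ⟨j, -, rfl⟩ := Finset.mem_image.1 hw
      refine mem_orb'.2 ⟨g j * (g i)⁻¹, GS_mul (hg j) (GS_inv (hg i)), ?_⟩
      rw [Equiv.Perm.mul_apply]
      congr 1
      exact (g i).symm_apply_apply _
    have h2 := Finset.card_le_card h1
    rw [Finset.card_image_of_injective _ (fun j j' hjj => by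
      have h3 := hinj (a₁ := (j, a)) (a₂ := (j', a)) hjj
      rw [Prod.mk.injEq] at h3
      exact h3.1), Finset.card_univ, Fintype.card_fin] at h2
    omega
  -- adjacency
  have hE : ∀ i a v, E (g i (z a)) v → ∃ b, g i (z b) = v := by
    intro i a v h
    refine (hCi _ (hg i) v).1 (mem_Cmp.2 ?_)
    exact (hinv (hg i) (hz a)).trans (reach_of_E20 h)
  refine ⟨𝒞.card, g, z, hD, hcard, hg, hinj, fun i v => hCi _ (hg i) v, hcov, ?_, ?_, ?_⟩
  · -- the group permutes the translates
    intro h hh i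
    obtain ⟨j, hj⟩ := hfull (h * g i) (GS_mul hh (hg i))
    refine ⟨j, fun a => ?_⟩
    have h1 : (h * g i) (z a) ∈ Cmp E (g j x) := by
      rw [← hj]
      exact (hCi _ (GS_mul hh (hg i)) _).2 ⟨a, rfl⟩
    obtain ⟨b, hb⟩ := (hCi _ (hg j) _).1 h1
    exact ⟨b, by rw [hb, Equiv.Perm.mul_apply]⟩
  · -- all permutations of the translates
    let u : Fin 𝒞.card × Fin (Cmp E x).card → V := fun p => g p.1 (z p.2)
    have hmv : ∀ (i j : Fin 𝒞.card), i ≠ j → ∀ (s : S) (v : Fin (ar s) → V), (∀ m a, v m ≠ u (j, a)) →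
        (R s (mv u (Function.update id i j) ∘ v) ↔ R s v) := by
      intro i j hij s v hv
      refine mv_blk har R hG (h := g j * (g i)⁻¹) (GS_mul (hg j) (GS_inv (hg i))) (B := fun w => ∃ a, u (i, a) = w)
        ?_ ?_ ?_ ?_
      · rintro w ⟨a, rfl⟩
        exact horb i a
      · rintro w ⟨a, rfl⟩
        rw [mv_in u hinj, Function.update_self, Equiv.Perm.mul_apply]
        show g j (z a) = g j ((g i)⁻¹ (g i (z a)))
        congr 1
        exact ((g i).symm_apply_apply _).symm
      · intro m hm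
        by_cases hin : ∃ p, u p = v m
        · obtain ⟨⟨b, a⟩, hp⟩ := hin
          have hb : b ≠ i := by
            rintro rfl
            exact hm ⟨a, hp⟩
          rw [← hp, mv_in u hinj, Function.update_of_ne hb]
          rfl
        · push Not at hin
          exact mv_out u _ _ hin
      · rintro m hm w ⟨a, rfl⟩
        constructor
        · intro h
          obtain ⟨b, hb⟩ := hE i a _ h
          exact hm ⟨b, hb⟩
        · intro h
          have e1 : (g j * (g i)⁻¹) (u (i, a)) = g j (z a) := by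
            rw [Equiv.Perm.mul_apply]
            congr 1
            exact (g i).symm_apply_apply _
          rw [e1] at h
          obtain ⟨b, hb⟩ := hE j a _ h
          exact hv m b hb.symm
    intro π σ h1 h2
    exact au_perm R u hinj (fun i j hij σ' h1' h2' =>
      au_block R r _ _ har (by omega) u hinj hmv i j hij σ' h1' h2') π σ (fun b a => h1 b a)
      (fun v hv => h2 v (fun i a => hv (i, a)))
  · -- an element preserving a translate acts on it alone
    intro h hh i hi σ h1 h2 s v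
    refine mv_blk har R hG hh (B := fun w => ∃ a, g i (z a) = w) ?_ ?_ ?_ ?_
    · rintro w ⟨a, rfl⟩
      exact horb i a
    · rintro w ⟨a, rfl⟩
      exact h1 a
    · intro m hm
      exact h2 _ (fun a ha => hm ⟨a, ha⟩)
    · rintro m hm w ⟨a, rfl⟩
      constructor
      · intro h'
        obtain ⟨b, hb⟩ := hE i a _ h'
        exact hm ⟨b, hb⟩
      · intro h'
        obtain ⟨b, hb⟩ := hi a
        rw [hb] at h'
        obtain ⟨b', hb'⟩ := hE i b _ h'
        exact hm ⟨b', hb'⟩

end Pool.Agent.Helper6.EA
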